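import Pool.Agent.Helper60.BFT.GoalsC
import Pool.Agent.Helper60.BFT.AvBasic

/-!
# The main inequality of the averaged model (packet MI)
-/

set_option autoImplicit false

open Finset Filter Topology
open Pool.Agent.Helper90.Twin (Ps Gz GG Sz SieveSys Adm wI cc avgI sig Hf Yf Phi XX nu)
open Pool.Agent.Helper90.Twin (Gz_pos Gz_le_one Hf_pos Hf_le Hf_ge cc_le Ps_mono mem_Ps term_one
  term_two)

namespace Pool.Agent.Helper48.BFT

open Pool.Agent.Helper60.BFT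

theorem XA_zero_one (Z : ℕ) (A : ℕ → ℕ) (t : ℕ) : XA Z A t = 0 ∨ XA Z A t = 1 := by
  unfold XA Helper90.Twin.XX
  by_cases h : ∃ p ∈ Ps Z, yA A p t = 1
  · left
    obtain ⟨p, hp, h1⟩ := h
    exact Finset.prod_eq_zero hp (by rw [h1]; ring)
  · right
    push Not at h
    apply Finset.prod_eq_one
    intro p hp
    have h1 := h p hp
    have h2 : yA A p t = 0 := by
      unfold yA at h1 ⊢
      split_ifs with h3
      · rw [if_pos h3] at h1
        exact absurd rfl h1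
      · rfl
    rw [h2]
    ring

theorem mi (hSG : SGG) (hSEQ : SEQG) : MIG := by
  intro lam hlam r Z R N A δ E hYr hrZ hRH hδ hE hCorr
  set H := Hf lam Z with hHdef
  set Y := Yf lam Z with hYdef
  have hY : Y = 3 * H + 1 := rfl
  set G := Gz Z with hGdef
  set g := Gz Y with hgdef
  have hG : 0 < G := Gz_pos Z
  have hG1 : G ≤ 1 := Gz_le_one Z
  have hg : 0 < g := Gz_pos Y
  have hg1 : g ≤ 1 := Gz_le_one Y
  have hH1 : 1 ≤ H := Hf_pos hlam Z
  have hHle : (H : ℝ) ≤ 2 * lam / G := Hf_le hlam Z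
  have hHge : lam / G ≤ H := Hf_ge Z
  have hH0 : (0 : ℝ) < H := by exact_mod_cast hH1
  have hYz : Y ≤ Z := hYr.trans hrZ
  have hbig : ∀ p ∈ Ps Z \ Ps Y, p.Prime ∧ 5 ≤ p ∧ 3 * H + 1 < p := by
    intro p hp
    rw [Finset.mem_sdiff, mem_Ps, mem_Ps] at hp
    refine ⟨hp.1.2.2, hp.1.1, ?_⟩
    by_contra h
    exact hp.2 ⟨hp.1.1, by omega, hp.1.2.2⟩
  have hR : ∀ p ∈ Ps Z \ Ps Y, 2 * (R + 2) ≤ p := by
    intro p hp
    have := (hbig p hp).2.2
    omega
  have hsig' : |Av (lg r Z) (fun B => ∑ t ∈ range N, XA Z B t * sig (XA Z B) H t) A|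
      ≤ ∑ r ∈ range R, (N * (cc (Ps Z \ Ps Y) (r + 2) * ((H : ℝ) ^ r * Real.sqrt H))
            + (δ * (N * (cc (Ps Z \ Ps Y) (r + 2) * ((g * (2 * (H * g)) ^ (r + 1)
                + (H : ℝ) ^ r / g ^ 2) / (r.factorial : ℝ)))) + (H : ℝ) ^ (r + 1) * E))
        + ((1 + δ) * (N * (cc (Ps Z \ Ps Y) (R + 2) * ((g * (2 * (H * g)) ^ (R + 1)
            + (H : ℝ) ^ R / g ^ 2) / (R.factorial : ℝ)))) + (H : ℝ) ^ (R + 1) * E) :=
    hSG r Z H R N A δ E hH1 hYr hrZ hRH hδ hE hCorr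
  have hnext : |Av (lg r Z) (fun B => B2 (XA Z B) N) A|
      ≤ |Av (lg r Z) (fun B => ∑ t ∈ range N, XA Z B t * sig (XA Z B) H t) A|
        + ((N : ℝ) / H + 2) := by
    have h1 : |Av (lg r Z) (fun B => B2 (XA Z B) N
        - ∑ t ∈ range N, XA Z B t * sig (XA Z B) H t) A| ≤ (N : ℝ) / H + 2 :=
      abs_Av_le_const _ lg_pos _ _ _ (fun B => hSEQ (XA Z B) (XA_zero_one Z B) H N hH1)
    rw [Av_sub] at h1
    have h2 := abs_sub_abs_le_abs_sub (Av (lg r Z) (fun B => B2 (XA Z B) N) A)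
      (Av (lg r Z) (fun B => ∑ t ∈ range N, XA Z B t * sig (XA Z B) H t) A)
    linarith
  set P := (2 * lam / G) ^ (R + 1) with hP
  have h2lG : 1 ≤ 2 * lam / G := by
    rw [le_div_iff₀ hG]
    linarith
  have hHpow : ∀ r, r ≤ R → (H : ℝ) ^ (r + 1) ≤ P := by
    intro r hr
    calc (H : ℝ) ^ (r + 1) ≤ (2 * lam / G) ^ (r + 1) := pow_le_pow_left₀ hH0.le hHle _
      _ ≤ _ := pow_le_pow_right₀ h2lG (by omega)
  set Φ := Real.sqrt G * (g⁻¹) ^ (R + 4) with hΦ
  have hN0 : (0 : ℝ) ≤ N := Nat.cast_nonneg _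
  have hgi : 1 ≤ g⁻¹ := (one_le_inv₀ hg).2 hg1
  have h2l : (1 : ℝ) ≤ 2 * lam := by linarith
  have h4l : (1 : ℝ) ≤ 4 * lam := by linarith
  have hccle : ∀ r, r ≤ R → cc (Ps Z \ Ps Y) (r + 2) ≤ (G / g) ^ (r + 2) := fun r hr =>
    cc_le hYz (fun p hp => by have := hR p hp; omega)
  -- the tails
  have htails : ∀ r, r ≤ R → cc (Ps Z \ Ps Y) (r + 2) * ((g * (2 * (H * g)) ^ (r + 1)
                + (H : ℝ) ^ r / g ^ 2) / (r.factorial : ℝ))
      ≤ G * ((4 * lam) ^ (R + 1) + (2 * lam) ^ R * Φ) := by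
    intro r hr
    refine (mul_le_mul_of_nonneg_right (hccle r hr) (by positivity)).trans ?_
    refine (term_two hG hG1 hg hlam hH0.le hHle r).trans ?_
    apply mul_le_mul_of_nonneg_left _ hG.le
    have hf : (1 : ℝ) ≤ (r.factorial : ℝ) := by exact_mod_cast r.factorial_pos
    apply add_le_add
    · refine (div_le_self (by positivity) hf).trans ?_
      exact pow_le_pow_right₀ h4l (by omega)
    · apply mul_le_mul
      · exact pow_le_pow_right₀ h2l hr
      · rw [hΦ]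
        apply mul_le_mul_of_nonneg_left _ (Real.sqrt_nonneg _)
        exact pow_le_pow_right₀ hgi (by omega)
      · positivity
      · positivity
  have hterm1 : ∀ r ∈ range R, (N * (cc (Ps Z \ Ps Y) (r + 2) * ((H : ℝ) ^ r * Real.sqrt H))
            + (δ * (N * (cc (Ps Z \ Ps Y) (r + 2) * ((g * (2 * (H * g)) ^ (r + 1)
                + (H : ℝ) ^ r / g ^ 2) / (r.factorial : ℝ)))) + (H : ℝ) ^ (r + 1) * E))
        ≤ N * G * ((2 * lam) ^ R * Φ) + (δ * (N * G * ((4 * lam) ^ (R + 1) + (2 * lam) ^ R * Φ))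
            + P * E) := by
    intro r hr
    rw [mem_range] at hr
    apply add_le_add
    · have h2 : cc (Ps Z \ Ps Y) (r + 2) * ((H : ℝ) ^ r * Real.sqrt H)
          ≤ G * ((2 * lam) ^ R * Φ) := by
        refine (mul_le_mul_of_nonneg_right (hccle r hr.le) (by positivity)).trans ?_
        exact term_one hG hg hg1 hlam hH0.le hHle hr
      calc (N : ℝ) * (cc (Ps Z \ Ps Y) (r + 2) * ((H : ℝ) ^ r * Real.sqrt H))
          ≤ N * (G * ((2 * lam) ^ R * Φ)) := mul_le_mul_of_nonneg_left h2 hN0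
        _ = _ := by ring
    · apply add_le_add
      · apply mul_le_mul_of_nonneg_left _ hδ
        calc (N : ℝ) * (cc (Ps Z \ Ps Y) (r + 2) * ((g * (2 * (H * g)) ^ (r + 1)
                + (H : ℝ) ^ r / g ^ 2) / (r.factorial : ℝ)))
            ≤ N * (G * ((4 * lam) ^ (R + 1) + (2 * lam) ^ R * Φ)) :=
              mul_le_mul_of_nonneg_left (htails r hr.le) hN0
          _ = _ := by ring
      · exact mul_le_mul_of_nonneg_right (hHpow r hr.le) hE
  have hterm2 : (1 + δ) * (N * (cc (Ps Z \ Ps Y) (R + 2) * ((g * (2 * (H * g)) ^ (R + 1)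
      + (H : ℝ) ^ R / g ^ 2) / (R.factorial : ℝ))))
      ≤ N * G * ((4 * lam) ^ (R + 1) / (R.factorial : ℝ) + (2 * lam) ^ R * Φ)
        + δ * (N * G * ((4 * lam) ^ (R + 1) + (2 * lam) ^ R * Φ)) := by
    have h2 : cc (Ps Z \ Ps Y) (R + 2) * ((g * (2 * (H * g)) ^ (R + 1)
        + (H : ℝ) ^ R / g ^ 2) / (R.factorial : ℝ))
        ≤ G * ((4 * lam) ^ (R + 1) / (R.factorial : ℝ) + (2 * lam) ^ R * Φ) := by
      refine (mul_le_mul_of_nonneg_right (hccle R le_rfl) (by positivity)).trans ?_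
      exact term_two hG hG1 hg hlam hH0.le hHle R
    have h3 := mul_le_mul_of_nonneg_left h2 hN0
    have h4 := mul_le_mul_of_nonneg_left (mul_le_mul_of_nonneg_left (htails R le_rfl) hN0) hδ
    calc (1 + δ) * (N * (cc (Ps Z \ Ps Y) (R + 2) * ((g * (2 * (H * g)) ^ (R + 1)
      + (H : ℝ) ^ R / g ^ 2) / (R.factorial : ℝ))))
        = N * (cc (Ps Z \ Ps Y) (R + 2) * ((g * (2 * (H * g)) ^ (R + 1)
          + (H : ℝ) ^ R / g ^ 2) / (R.factorial : ℝ)))
          + δ * (N * (cc (Ps Z \ Ps Y) (R + 2) * ((g * (2 * (H * g)) ^ (R + 1)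
          + (H : ℝ) ^ R / g ^ 2) / (R.factorial : ℝ)))) := by ring
      _ ≤ N * (G * ((4 * lam) ^ (R + 1) / (R.factorial : ℝ) + (2 * lam) ^ R * Φ))
          + δ * (N * (G * ((4 * lam) ^ (R + 1) + (2 * lam) ^ R * Φ))) := add_le_add h3 h4
      _ = _ := by ring
  have hterm3 : (H : ℝ) ^ (R + 1) * E ≤ P * E :=
    mul_le_mul_of_nonneg_right (hHpow R le_rfl) hE
  have hterm4 : (N : ℝ) / H ≤ N * G * (1 / lam) := by
    rw [div_le_iff₀ hH0]
    have h1 : (1 : ℝ) ≤ G * (1 / lam) * H := by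
      have h2 : G * (1 / lam) * (lam / G) = 1 := by field_simp
      calc (1 : ℝ) = G * (1 / lam) * (lam / G) := h2.symm
        _ ≤ _ := mul_le_mul_of_nonneg_left hHge (by positivity)
    calc (N : ℝ) = N * 1 := (mul_one _).symm
      _ ≤ N * (G * (1 / lam) * H) := mul_le_mul_of_nonneg_left h1 hN0
      _ = _ := by ring
  have hsum := Finset.sum_le_sum hterm1
  rw [Finset.sum_const (N * G * ((2 * lam) ^ R * Φ) + (δ * (N * G * ((4 * lam) ^ (R + 1)
    + (2 * lam) ^ R * Φ)) + P * E)), Finset.card_range, nsmul_eq_mul] at hsum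
  have hPhi : Phi lam (R + 4) Z = Φ := rfl
  rw [hPhi]
  calc |Av (lg r Z) (fun B => B2 (XA Z B) N) A|
      ≤ R * (N * G * ((2 * lam) ^ R * Φ) + (δ * (N * G * ((4 * lam) ^ (R + 1)
          + (2 * lam) ^ R * Φ)) + P * E))
        + (N * G * ((4 * lam) ^ (R + 1) / (R.factorial : ℝ) + (2 * lam) ^ R * Φ)
        + δ * (N * G * ((4 * lam) ^ (R + 1) + (2 * lam) ^ R * Φ)) + P * E)
        + (N * G * (1 / lam) + 2) := by linarith
    _ = _ := by ring

end Pool.Agent.Helper48.BFT
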